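import Mathlib

namespace Pool.Agent.LibPathRamsey

open List

section alt

variable {V : Type*} (Bl : V → V → Prop)

/-- Flatten a list of pairs. -/
def flat (L : List (V × V)) : List V := L.flatMap (fun q => [q.1, q.2])

@[simp] lemma flat_nil : flat ([] : List (V × V)) = [] := rfl
@[simp] lemma flat_cons (q : V × V) (L : List (V × V)) : flat (q :: L) = q.1 :: q.2 :: flat L := rfl

lemma mem_flat (L : List (V × V)) (v : V) :
    v ∈ flat L ↔ v ∈ L.map Prod.fst ∨ v ∈ L.map Prod.snd := by
  induction L with
  | nil => simp
  | cons q L ih =>
    rw [flat_cons, List.mem_cons, List.mem_cons, ih]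
    simp only [List.map_cons, List.mem_cons]
    tauto

lemma length_flat (L : List (V × V)) : (flat L).length = 2 * L.length := by
  induction L with
  | nil => rfl
  | cons q L ih => rw [flat_cons, List.length_cons, List.length_cons, ih, List.length_cons]; ring

/-- The alternating path lists. -/
structure Alt (y : V) (bs : List V) (A : List V) (L : List (V × V)) : Prop where
  fsts : (L.map Prod.fst).Perm bs
  adj : ∀ q ∈ L, Bl q.1 q.2
  chain : L.IsChain (fun q q' => Bl q.2 q'.1)
  nodup : (L.map Prod.snd).Nodup
  mem : ∀ x ∈ L.map Prod.snd, x = y ∨ x ∈ A

variable {Bl}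

/-- Adding one more vertex with the help of one more pair. -/
lemma alt_step (hsymm : ∀ u v, Bl u v → Bl v u) {y : V} {bs A : List V} {L : List (V × V)}
    (hL : Alt Bl y bs A L) (hne : L ≠ []) (b z z' : V) (hby : Bl b y)
    (hy : ∀ c ∈ bs, Bl c y) (hbz : Bl b z) (hor : ∀ c ∈ bs, Bl c z ∨ Bl c z')
    (hzy : z ≠ y) (hz'y : z' ≠ y) (hzz' : z ≠ z') (hzA : z ∉ A) (hz'A : z' ∉ A) :
    ∃ L', Alt Bl y (b :: bs) (z :: z' :: A) L' ∧ L' ≠ [] := by
  have hzL : z ∉ L.map Prod.snd := by
    intro h
    rcases hL.mem z h with h | h
    · exact hzy h
    · exact hzA h
  have hz'L : z' ∉ L.map Prod.snd := by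
    intro h
    rcases hL.mem z' h with h | h
    · exact hz'y h
    · exact hz'A h
  have hcb : ∀ q ∈ L, q.1 ∈ bs := by
    intro q hq
    exact hL.fsts.subset (List.mem_map_of_mem hq)
  by_cases hyL : y ∈ L.map Prod.snd
  · -- `y` is used
    rw [List.mem_map] at hyL
    obtain ⟨⟨c, y'⟩, hq, hy'⟩ := hyL
    simp only at hy'
    subst hy'
    obtain ⟨L0, L1, rfl⟩ := List.append_of_mem hq
    have hc : c ∈ bs := hcb (c, y') hq
    cases L1 with
    | nil =>
      refine ⟨L0 ++ [(c, y'), (b, z)], ?_, by simp⟩
      refine ⟨?_, ?_, ?_, ?_, ?_⟩
      · have h1 := hL.fsts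
        simp only [List.map_append, List.map_cons, List.map_nil] at h1 ⊢
        have e : L0.map Prod.fst ++ [c, b] = (L0.map Prod.fst ++ [c]) ++ [b] := by simp
        rw [e]
        exact (List.perm_append_singleton b _).trans (h1.cons b)
      · intro q hq'
        simp only [List.mem_append, List.mem_cons, List.not_mem_nil, or_false] at hq'
        rcases hq' with h | h | h
        · exact hL.adj q (by simp [h])
        · subst h; exact hy c hc
        · subst h; exact hbz
      · have h1 := hL.chain
        rw [show L0 ++ [(c, y'), (b, z)] = (L0 ++ [(c, y')]) ++ [(b, z)] by simp]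
        rw [List.isChain_append]
        refine ⟨h1, List.IsChain.singleton _, ?_⟩
        intro q hq1 q' hq2
        simp only [List.getLast?_append, List.getLast?_singleton, Option.some_or,
          Option.mem_def, Option.some.injEq] at hq1
        simp only [List.head?_cons, Option.mem_def, Option.some.injEq] at hq2
        subst hq1 hq2
        exact hsymm _ _ hby
      · have h1 := hL.nodup
        simp only [List.map_append, List.map_cons, List.map_nil] at h1 hzL ⊢
        rw [show L0.map Prod.snd ++ [y', z] = (L0.map Prod.snd ++ [y']) ++ [z] by simp]
        rw [List.nodup_append]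
        refine ⟨h1, by simp, ?_⟩
        intro a ha a' ha' h
        simp only [List.mem_singleton] at ha'
        subst ha' h
        exact hzL ha
      · intro x hx
        simp only [List.map_append, List.map_cons, List.map_nil, List.mem_append,
          List.mem_cons, List.not_mem_nil, or_false] at hx ⊢
        rcases hx with h | h | h
        · rcases hL.mem x (by simp only [List.map_append, List.mem_append]; exact Or.inl h) with h | h
          · exact Or.inl h
          · exact Or.inr (Or.inr (Or.inr h))
        · exact Or.inl h
        · exact Or.inr (Or.inl h)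
    | cons dw L1 =>
      obtain ⟨d, w⟩ := dw
      have hd : d ∈ bs := hcb (d, w) (by simp)
      have hchain := hL.chain
      rw [List.isChain_append] at hchain
      obtain ⟨hch0, hch1, hch01⟩ := hchain
      rw [List.isChain_cons_cons] at hch1
      obtain ⟨hyd, hch2⟩ := hch1
      have hnd := hL.nodup
      simp only [List.map_append, List.map_cons] at hnd hzL hz'L
      have hsub : ∀ x ∈ L0.map Prod.snd ++ w :: L1.map Prod.snd, x = y' ∨ x ∈ A := by
        intro x hx
        apply hL.mem
        simp only [List.map_append, List.map_cons, List.mem_append, List.mem_cons] at hx ⊢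
        tauto
      by_cases hcz : Bl c z
      · refine ⟨L0 ++ (c, z) :: (b, y') :: (d, w) :: L1, ?_, by simp⟩
        refine ⟨?_, ?_, ?_, ?_, ?_⟩
        · refine List.Perm.trans ?_ (hL.fsts.cons b)
          simp only [List.map_append, List.map_cons]
          have h1 : (L0.map Prod.fst ++ c :: b :: d :: L1.map Prod.fst).Perm
              ((L0.map Prod.fst ++ [c]) ++ b :: (d :: L1.map Prod.fst)) := by simp
          refine h1.trans ((List.perm_middle).trans ?_)
          simp
        · intro q hq'
          simp only [List.mem_append, List.mem_cons] at hq'
          rcases hq' with h | h | h | h | h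
          · exact hL.adj q (by simp [h])
          · subst h; exact hcz
          · subst h; exact hby
          · exact hL.adj q (by simp [h])
          · exact hL.adj q (by simp [h])
        · rw [List.isChain_append]
          refine ⟨hch0, ?_, ?_⟩
          · rw [List.isChain_cons_cons, List.isChain_cons_cons]
            exact ⟨hsymm _ _ hbz, hyd, hch2⟩
          · intro q hq1 q' hq2
            simp only [List.head?_cons, Option.mem_def, Option.some.injEq] at hq2
            subst hq2
            exact hch01 q hq1 (c, y') (by simp)
        · simp only [List.map_append, List.map_cons]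
          rw [List.nodup_append] at hnd ⊢
          obtain ⟨h1, h2, h3⟩ := hnd
          simp only [List.nodup_cons, List.mem_append, List.mem_cons] at h2 hzL h3 ⊢
          push Not at hzL
          refine ⟨h1, ⟨?_, ?_, h2.2⟩, ?_⟩
          · push Not
            exact ⟨hzL.2.1, hzL.2.2.1, hzL.2.2.2⟩
          · exact h2.1
          · intro a ha a' ha'
            rcases ha' with h | h
            · intro h'
              rw [h', h] at ha
              exact hzL.1 ha
            · exact h3 a ha a' h
        · intro x hx
          simp only [List.map_append, List.map_cons, List.mem_append, List.mem_cons] at hx ⊢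
          rcases hx with h | h | h | h | h
          · rcases hsub x (by simp [h]) with h | h <;> tauto
          · tauto
          · tauto
          · rcases hsub x (by simp [h]) with h | h <;> tauto
          · rcases hsub x (by
              simp only [List.mem_append, List.mem_cons]; tauto) with h | h <;> tauto
      · by_cases hdz : Bl d z
        · refine ⟨L0 ++ (c, y') :: (b, z) :: (d, w) :: L1, ?_, by simp⟩
          refine ⟨?_, ?_, ?_, ?_, ?_⟩
          · refine List.Perm.trans ?_ (hL.fsts.cons b)
            simp only [List.map_append, List.map_cons]
            have h1 : (L0.map Prod.fst ++ c :: b :: d :: L1.map Prod.fst).Perm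
                ((L0.map Prod.fst ++ [c]) ++ b :: (d :: L1.map Prod.fst)) := by simp
            refine h1.trans ((List.perm_middle).trans ?_)
            simp
          · intro q hq'
            simp only [List.mem_append, List.mem_cons] at hq'
            rcases hq' with h | h | h | h | h
            · exact hL.adj q (by simp [h])
            · subst h; exact hy c hc
            · subst h; exact hbz
            · exact hL.adj q (by simp [h])
            · exact hL.adj q (by simp [h])
          · rw [List.isChain_append]
            refine ⟨hch0, ?_, ?_⟩
            · rw [List.isChain_cons_cons, List.isChain_cons_cons]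
              exact ⟨hsymm _ _ hby, hsymm _ _ hdz, hch2⟩
            · intro q hq1 q' hq2
              simp only [List.head?_cons, Option.mem_def, Option.some.injEq] at hq2
              subst hq2
              exact hch01 q hq1 (c, y') (by simp)
          · simp only [List.map_append, List.map_cons]
            rw [List.nodup_append] at hnd ⊢
            obtain ⟨h1, h2, h3⟩ := hnd
            simp only [List.nodup_cons, List.mem_append, List.mem_cons] at h2 hzL h3 ⊢
            push Not at hzL
            refine ⟨h1, ⟨?_, ?_, h2.2⟩, ?_⟩
            · push Not
              have h4 := h2.1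
              push Not at h4
              exact ⟨fun h => hzL.2.1 h.symm, h4.1, h4.2⟩
            · push Not
              exact ⟨hzL.2.2.1, hzL.2.2.2⟩
            · intro a ha a' ha'
              rcases ha' with h | h | h
              · exact h3 a ha a' (Or.inl h)
              · intro h'
                rw [h', h] at ha
                exact hzL.1 ha
              · exact h3 a ha a' (Or.inr h)
          · intro x hx
            simp only [List.map_append, List.map_cons, List.mem_append, List.mem_cons] at hx ⊢
            rcases hx with h | h | h | h | h
            · rcases hsub x (by simp [h]) with h | h <;> tauto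
            · tauto
            · tauto
            · rcases hsub x (by simp [h]) with h | h <;> tauto
            · rcases hsub x (by
                simp only [List.mem_append, List.mem_cons]; tauto) with h | h <;> tauto
        · -- both miss `z`
          have hcz' : Bl c z' := (hor c hc).resolve_left hcz
          have hdz' : Bl d z' := (hor d hd).resolve_left hdz
          obtain ⟨L2, ⟨e, x⟩, hL2⟩ : ∃ L2 q, (d, w) :: L1 = L2 ++ [q] :=
            ⟨_, _, (List.dropLast_append_getLast (l := (d, w) :: L1) (by simp)).symm⟩
          have he : e ∈ bs := by
            apply hcb (e, x)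
            rw [hL2]
            simp
          refine ⟨L0 ++ (c, z') :: (L2 ++ [(e, y'), (b, z)]), ?_, by simp⟩
          have hfst1 : d :: L1.map Prod.fst = L2.map Prod.fst ++ [e] := by
            have := congrArg (List.map Prod.fst) hL2
            simpa using this
          have hsnd1 : w :: L1.map Prod.snd = L2.map Prod.snd ++ [x] := by
            have := congrArg (List.map Prod.snd) hL2
            simpa using this
          refine ⟨?_, ?_, ?_, ?_, ?_⟩
          · refine List.Perm.trans ?_ (hL.fsts.cons b)
            simp only [List.map_append, List.map_cons, List.map_nil]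
            rw [hfst1]
            have h1 : L0.map Prod.fst ++ c :: (L2.map Prod.fst ++ [e, b]) =
                (L0.map Prod.fst ++ c :: (L2.map Prod.fst ++ [e])) ++ [b] := by simp
            rw [h1]
            exact List.perm_append_singleton b _
          · intro q hq'
            simp only [List.mem_append, List.mem_cons, List.not_mem_nil, or_false] at hq'
            rcases hq' with h | h | h | h | h
            · exact hL.adj q (by simp [h])
            · subst h; exact hcz'
            · apply hL.adj q
              rw [hL2]
              simp [h]
            · subst h; exact hy e he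
            · subst h; exact hbz
          · rw [List.isChain_append]
            refine ⟨hch0, ?_, ?_⟩
            · rw [hL2] at hch2
              have h5 : (L2 ++ [(e, y'), (b, z)]).IsChain (fun q q' => Bl q.2 q'.1) := by
                rw [show L2 ++ [(e, y'), (b, z)] = (L2 ++ [(e, y')]) ++ [(b, z)] by simp]
                rw [List.isChain_append]
                refine ⟨?_, List.IsChain.singleton _, ?_⟩
                · rw [List.isChain_append] at hch2 ⊢
                  refine ⟨hch2.1, List.IsChain.singleton _, ?_⟩
                  intro q hq1 q' hq2
                  simp only [List.head?_cons, Option.mem_def, Option.some.injEq] at hq2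
                  subst hq2
                  exact hch2.2.2 q hq1 (e, x) (by simp)
                · intro q hq1 q' hq2
                  simp only [List.getLast?_append, List.getLast?_singleton, Option.some_or,
                    Option.mem_def, Option.some.injEq] at hq1
                  simp only [List.head?_cons, Option.mem_def, Option.some.injEq] at hq2
                  subst hq1 hq2
                  exact hsymm _ _ hby
              -- the head of the rest has first component `d`
              cases hM : L2 ++ [(e, y'), (b, z)] with
              | nil => exact List.IsChain.singleton _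
              | cons q M =>
                rw [hM] at h5
                rw [List.isChain_cons_cons]
                refine ⟨?_, h5⟩
                have hq1 : q.1 = d := by
                  cases L2 with
                  | nil =>
                    simp only [List.nil_append, List.cons.injEq] at hM hL2
                    rw [← hM.1]
                    exact (congrArg Prod.fst hL2.1).symm
                  | cons q2 L2 =>
                    simp only [List.cons_append, List.cons.injEq] at hM hL2
                    rw [← hM.1, ← hL2.1]
                rw [hq1]
                exact hsymm _ _ hdz'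
            · intro q hq1 q' hq2
              simp only [List.head?_cons, Option.mem_def, Option.some.injEq] at hq2
              subst hq2
              exact hch01 q hq1 (c, y') (by simp)
          · simp only [List.map_append, List.map_cons, List.map_nil]
            rw [hsnd1] at hnd hzL hz'L
            rw [List.nodup_append] at hnd ⊢
            obtain ⟨h1, h2, h3⟩ := hnd
            rw [List.nodup_cons, List.nodup_append] at h2
            obtain ⟨h4, h5, h6, h7⟩ := h2
            simp only [List.mem_append, List.mem_cons, List.not_mem_nil, or_false] at hzL hz'L h4 h3 h7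
            push Not at hzL hz'L h4
            refine ⟨h1, ?_, ?_⟩
            · rw [List.nodup_cons, List.nodup_append]
              refine ⟨?_, h5, ?_, ?_⟩
              · simp only [List.mem_append, List.mem_cons, List.not_mem_nil, or_false]
                push Not
                exact ⟨hz'L.2.2.1, hz'y, fun h => hzz' h.symm⟩
              · simp only [List.nodup_cons, List.mem_singleton, List.not_mem_nil,
                  not_false_eq_true, List.nodup_nil, and_true]
                exact fun h => hzy h.symm
              · intro a ha a' ha'
                simp only [List.mem_cons, List.not_mem_nil, or_false] at ha'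
                rcases ha' with h | h
                · intro h'
                  rw [h', h] at ha
                  exact h4.1 ha
                · intro h'
                  rw [h', h] at ha
                  exact hzL.2.2.1 ha
            · intro a ha a' ha'
              simp only [List.mem_cons, List.mem_append, List.not_mem_nil, or_false] at ha'
              rcases ha' with h | h | h | h
              · intro h'
                rw [h', h] at ha
                exact hz'L.1 ha
              · exact h3 a ha a' (Or.inr (Or.inl h))
              · exact h3 a ha a' (Or.inl h)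
              · intro h'
                rw [h', h] at ha
                exact hzL.1 ha
          · intro v hv
            simp only [List.map_append, List.map_cons, List.map_nil, List.mem_append,
              List.mem_cons, List.not_mem_nil, or_false] at hv ⊢
            rw [hsnd1] at hsub
            rcases hv with h | h | h | h | h
            · rcases hsub v (by simp [h]) with h | h <;> tauto
            · tauto
            · rcases hsub v (by
                simp only [List.mem_append, List.mem_cons, List.not_mem_nil, or_false]
                tauto) with h | h <;> tauto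
            · tauto
            · tauto
  · -- `y` is not used: put it at the end
    obtain ⟨L0, ⟨c, x⟩, rfl⟩ : ∃ L0 q, L = L0 ++ [q] :=
      ⟨_, _, (List.dropLast_append_getLast hne).symm⟩
    have hc : c ∈ bs := hcb (c, x) (by simp)
    refine ⟨L0 ++ [(c, y), (b, z)], ?_, by simp⟩
    refine ⟨?_, ?_, ?_, ?_, ?_⟩
    · have h1 := hL.fsts
      simp only [List.map_append, List.map_cons, List.map_nil] at h1 ⊢
      have e : L0.map Prod.fst ++ [c, b] = (L0.map Prod.fst ++ [c]) ++ [b] := by simp
      rw [e]
      exact (List.perm_append_singleton b _).trans (h1.cons b)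
    · intro q hq'
      simp only [List.mem_append, List.mem_cons, List.not_mem_nil, or_false] at hq'
      rcases hq' with h | h | h
      · exact hL.adj q (by simp [h])
      · subst h; exact hy c hc
      · subst h; exact hbz
    · have h1 := hL.chain
      rw [List.isChain_append] at h1
      rw [show L0 ++ [(c, y), (b, z)] = L0 ++ ((c, y) :: [(b, z)]) by simp]
      rw [List.isChain_append]
      refine ⟨h1.1, ?_, ?_⟩
      · rw [List.isChain_cons_cons]
        exact ⟨hsymm _ _ hby, List.IsChain.singleton _⟩
      · intro q hq1 q' hq2
        simp only [List.head?_cons, Option.mem_def, Option.some.injEq] at hq2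
        subst hq2
        exact h1.2.2 q hq1 (c, x) (by simp)
    · have h1 := hL.nodup
      simp only [List.map_append, List.map_cons, List.map_nil] at h1 hzL hyL ⊢
      rw [List.nodup_append] at h1 ⊢
      simp only [List.mem_append, List.mem_cons, List.not_mem_nil, or_false] at hzL hyL
      push Not at hzL hyL
      refine ⟨h1.1, ?_, ?_⟩
      · simp only [List.nodup_cons, List.mem_singleton, List.not_mem_nil,
          not_false_eq_true, List.nodup_nil, and_true]
        exact fun h => hzy h.symm
      · intro a ha a' ha'
        simp only [List.mem_cons, List.not_mem_nil, or_false] at ha'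
        rcases ha' with h | h
        · intro h'
          rw [h', h] at ha
          exact hyL.1 ha
        · intro h'
          rw [h', h] at ha
          exact hzL.1 ha
    · intro v hv
      simp only [List.map_append, List.map_cons, List.map_nil, List.mem_append,
        List.mem_cons, List.not_mem_nil, or_false] at hv ⊢
      rcases hv with h | h | h
      · rcases hL.mem v (by simp only [List.map_append, List.mem_append]; exact Or.inl h) with h | h
        · exact Or.inl h
        · exact Or.inr (Or.inr (Or.inr h))
      · exact Or.inl h
      · exact Or.inr (Or.inl h)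

/-- The alternating path lemma. -/
lemma alt_exists (hsymm : ∀ u v, Bl u v → Bl v u) (y : V) :
    ∀ (ps : List (V × V)) (bs : List V), bs.length = ps.length + 1 →
      (∀ b ∈ bs, Bl b y) → (∀ b ∈ bs, ∀ p ∈ ps, Bl b p.1 ∨ Bl b p.2) →
      (y :: flat ps).Nodup → ∃ L, Alt Bl y bs (flat ps) L ∧ L ≠ [] := by
  intro ps
  induction ps with
  | nil =>
    intro bs hlen hy _ _
    rw [List.length_nil, zero_add] at hlen
    obtain ⟨b, rfl⟩ := List.length_eq_one_iff.mp hlen
    refine ⟨[(b, y)], ⟨by simp, ?_, List.IsChain.singleton _, by simp, ?_⟩, by simp⟩
    · intro q hq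
      simp only [List.mem_singleton] at hq
      subst hq
      exact hy b (by simp)
    · intro x hx
      left
      simpa using hx
  | cons p ps ih =>
    intro bs hlen hy hor hnd
    cases bs with
    | nil => simp at hlen
    | cons b bs =>
      obtain ⟨p1, p2⟩ := p
      rw [flat_cons] at hnd
      simp only [List.nodup_cons, List.mem_cons] at hnd
      obtain ⟨h1, h2, h3, h4⟩ := hnd
      push Not at h1 h2
      obtain ⟨L, hL, hne⟩ := ih bs (by simpa using hlen)
        (fun c hc => hy c (by simp [hc])) (fun c hc q hq => hor c (by simp [hc]) q (by simp [hq]))
        (by rw [List.nodup_cons]; exact ⟨h1.2.2, h4⟩)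
      rcases hor b (by simp) (p1, p2) (by simp) with hb | hb
      · exact alt_step hsymm hL hne b p1 p2 (hy b (by simp)) (fun c hc => hy c (by simp [hc]))
          hb (fun c hc => hor c (by simp [hc]) (p1, p2) (by simp)) (fun h => h1.1 h.symm)
          (fun h => h1.2.1 h.symm) h2.1 h2.2 h3
      · obtain ⟨L', hL', hne'⟩ := alt_step hsymm hL hne b p2 p1 (hy b (by simp))
          (fun c hc => hy c (by simp [hc]))
          hb (fun c hc => (hor c (by simp [hc]) (p1, p2) (by simp)).symm)
          (fun h => h1.2.1 h.symm) (fun h => h1.1 h.symm) (fun h => h2.1 h.symm) h3 h2.2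
        refine ⟨L', ⟨hL'.fsts, hL'.adj, hL'.chain, hL'.nodup, ?_⟩, hne'⟩
        intro x hx
        have := hL'.mem x hx
        rw [flat_cons]
        simp only [List.mem_cons] at this ⊢
        tauto

lemma flat_chain (L : List (V × V))
    (h1 : ∀ q ∈ L, Bl q.1 q.2) (h2 : L.IsChain (fun q q' => Bl q.2 q'.1)) :
    (flat L).IsChain Bl := by
  induction L with
  | nil => exact List.IsChain.nil
  | cons q L ih =>
    rw [flat_cons]
    cases L with
    | nil =>
      rw [flat_nil, List.isChain_cons_cons]
      exact ⟨h1 q (by simp), List.IsChain.singleton _⟩
    | cons q' L =>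
      rw [List.isChain_cons_cons] at h2
      have h3 := ih (fun r hr => h1 r (by simp [hr])) h2.2
      rw [flat_cons] at h3 ⊢
      rw [List.isChain_cons_cons, List.isChain_cons_cons]
      exact ⟨h1 q (by simp), h2.1, h3⟩

lemma flat_nodup (L : List (V × V)) (h1 : (L.map Prod.fst).Nodup) (h2 : (L.map Prod.snd).Nodup)
    (h3 : ∀ x ∈ L.map Prod.fst, x ∉ L.map Prod.snd) : (flat L).Nodup := by
  induction L with
  | nil => simp
  | cons q L ih =>
    rw [List.map_cons, List.nodup_cons] at h1 h2
    simp only [List.map_cons, List.mem_cons] at h3
    rw [flat_cons, List.nodup_cons, List.nodup_cons]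
    refine ⟨?_, ?_, ?_⟩
    · rw [List.mem_cons, mem_flat]
      push Not
      refine ⟨fun h => h3 q.1 (Or.inl rfl) (Or.inl h), h1.1, fun h => h3 q.1 (Or.inl rfl) (Or.inr h)⟩
    · rw [mem_flat]
      push Not
      refine ⟨fun h => h3 q.2 (Or.inr h) (Or.inl rfl), h2.1⟩
    · apply ih h1.2 h2.2
      intro x hx hx'
      exact h3 x (Or.inr hx) (Or.inr hx')

end alt

section gg

variable {V : Type*}

lemma exists_flat (k : ℕ) : ∀ R : List V, R.length = 2 * k →
    ∃ ps : List (V × V), R = flat ps ∧ ps.length = k := by
  induction k with
  | zero =>
    intro R hR
    refine ⟨[], ?_, rfl⟩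
    simpa using hR
  | succ k ih =>
    intro R hR
    match R, hR with
    | [], hR => simp at hR
    | [x], hR => simp at hR; omega
    | x :: y :: R, hR =>
      obtain ⟨ps, hps, hlen⟩ := ih R (by simp only [List.length_cons] at hR; omega)
      exact ⟨(x, y) :: ps, by rw [hps]; rfl, by simp [hlen]⟩

lemma flat_append (L L' : List (V × V)) : flat (L ++ L') = flat L ++ flat L' := by
  unfold flat
  rw [List.flatMap_append]

lemma flat_mem_split (ps : List (V × V)) (q : V × V) (hq : q ∈ ps) :
    ∃ l1 l2, flat ps = l1 ++ q.1 :: q.2 :: l2 := by
  obtain ⟨L0, L1, rfl⟩ := List.append_of_mem hq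
  exact ⟨flat L0, flat L1, by rw [flat_append, flat_cons]⟩

/-- If a red path cannot be made longer then there is a blue path with one more vertex. -/
lemma blue_path [Fintype V] [DecidableEq V] (Rd : V → V → Prop)
    (hsymm : ∀ u v, Rd u v → Rd v u) (p : List V) (hp : p.Nodup) (hch : p.IsChain Rd)
    (hK : 1 ≤ p.length)
    (hmax : ¬ ∃ q : List V, q.Nodup ∧ q.length = p.length + 1 ∧ q.IsChain Rd)
    (hcard : p.length + (p.length + 1) / 2 ≤ Fintype.card V) :
    ∃ q : List V, q.Nodup ∧ q.length = p.length + 1 ∧ q.IsChain (fun u v => ¬ Rd u v) := by
  set m := (p.length + 1) / 2 with hm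
  have hm1 : 1 ≤ m := by omega
  -- the outside vertices
  have hout : m ≤ (Finset.univ \ p.toFinset).card := by
    rw [Finset.card_sdiff_of_subset (Finset.subset_univ _), List.toFinset_card_of_nodup hp,
      Finset.card_univ]
    omega
  set bs := (Finset.univ \ p.toFinset).toList.take m with hbs
  have hbslen : bs.length = m := by
    rw [hbs, List.length_take, Finset.length_toList]
    omega
  have hbsnd : bs.Nodup := (Finset.nodup_toList _).take
  have hbsout : ∀ b ∈ bs, b ∉ p := by
    intro b hb
    have h1 := List.mem_of_mem_take hb
    rw [Finset.mem_toList, Finset.mem_sdiff, List.mem_toFinset] at h1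
    exact h1.2
  have hsymm' : ∀ u v, ¬ Rd u v → ¬ Rd v u := fun u v h h' => h (hsymm v u h')
  -- three facts
  obtain ⟨a, R, rfl⟩ : ∃ a R, p = a :: R := by
    cases p with
    | nil => simp at hK
    | cons a R => exact ⟨a, R, rfl⟩
  have hfirst : ∀ b ∈ bs, ¬ Rd b a := by
    intro b hb h
    apply hmax
    refine ⟨b :: a :: R, ?_, by simp, ?_⟩
    · rw [List.nodup_cons]
      exact ⟨hbsout b hb, hp⟩
    · rw [List.isChain_cons_cons]
      exact ⟨h, hch⟩
  have hmid : ∀ b ∈ bs, ∀ x y l1 l2, a :: R = l1 ++ x :: y :: l2 → ¬ Rd b x ∨ ¬ Rd b y := by
    intro b hb x y l1 l2 heq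
    by_contra hcon
    push Not at hcon
    apply hmax
    have hbo := hbsout b hb
    rw [heq] at hp hch hbo ⊢
    refine ⟨l1 ++ x :: b :: y :: l2, ?_, by simp; omega, ?_⟩
    · have h1 : (l1 ++ x :: b :: y :: l2).Perm (b :: (l1 ++ x :: y :: l2)) := by
        have h2 : l1 ++ x :: b :: y :: l2 = (l1 ++ [x]) ++ b :: (y :: l2) := by simp
        rw [h2]
        refine (List.perm_middle).trans ?_
        simp
      rw [h1.nodup_iff, List.nodup_cons]
      exact ⟨hbo, hp⟩
    · rw [List.isChain_append] at hch ⊢
      refine ⟨hch.1, ?_, ?_⟩
      · have h3 := hch.2.1
        rw [List.isChain_cons_cons] at h3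
        rw [List.isChain_cons_cons, List.isChain_cons_cons]
        exact ⟨hsymm _ _ hcon.1, hcon.2, h3.2⟩
      · intro u hu v hv
        simp only [List.head?_cons, Option.mem_def, Option.some.injEq] at hv
        subst hv
        exact hch.2.2 u hu x (by simp)
  -- the main construction
  have hmain : ∀ R' : List V, R'.length = 2 * (m - 1) → (∃ R'', R = R' ++ R'') →
      ∃ L, Alt (fun u v => ¬ Rd u v) a bs R' L ∧ L ≠ [] := by
    intro R' hR' hpre
    obtain ⟨R'', hR''⟩ := hpre
    obtain ⟨ps, hps, hpslen⟩ := exists_flat (m - 1) R' hR'
    rw [hps]
    apply alt_exists hsymm' a ps bs (by omega) hfirst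
    · intro b hb q hq
      obtain ⟨l1, l2, h1⟩ := flat_mem_split ps q hq
      apply hmid b hb q.1 q.2 (a :: l1) (l2 ++ R'')
      rw [hR'', hps, h1]
      simp
    · rw [← hps]
      rw [hR''] at hp
      rw [show a :: (R' ++ R'') = (a :: R') ++ R'' by simp] at hp
      exact (List.nodup_append.mp hp).1
  have hfin : ∀ R' L, (∃ R'', R = R' ++ R'') → Alt (fun u v => ¬ Rd u v) a bs R' L →
      (flat L).Nodup ∧ (flat L).length = 2 * m ∧ (flat L).IsChain (fun u v => ¬ Rd u v) := by
    intro R' L hpre hL
    obtain ⟨R'', hR''⟩ := hpre
    refine ⟨?_, ?_, flat_chain L hL.adj hL.chain⟩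
    · apply flat_nodup L (hL.fsts.nodup_iff.mpr hbsnd) hL.nodup
      intro x hx hx'
      have h1 := hbsout x (hL.fsts.subset hx)
      rcases hL.mem x hx' with h | h
      · rw [h] at h1
        exact h1 (by simp)
      · apply h1
        rw [hR'']
        simp [h]
    · rw [length_flat]
      have := hL.fsts.length_eq
      rw [List.length_map] at this
      omega
  simp only [List.length_cons] at hm hK hcard ⊢
  rcases Nat.even_or_odd' (R.length + 1) with ⟨k, hk | hk⟩
  · -- even number of vertices on the red path
    have hkm : m = k := by omega
    -- split off the last vertex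
    obtain ⟨R', z, hRz⟩ : ∃ R' z, R = R' ++ [z] := by
      have hne : R ≠ [] := by
        intro h
        rw [h] at hk
        simp at hk
        omega
      exact ⟨_, _, (List.dropLast_append_getLast hne).symm⟩
    have hR'len : R'.length = 2 * (m - 1) := by
      rw [hRz] at hk
      simp only [List.length_append, List.length_cons, List.length_nil] at hk
      omega
    obtain ⟨L, hL, hne⟩ := hmain R' hR'len ⟨[z], hRz⟩
    obtain ⟨h1, h2, h3⟩ := hfin R' L ⟨[z], hRz⟩ hL
    have hlast : ∀ b ∈ bs, ¬ Rd z b := by
      intro b hb h
      apply hmax
      refine ⟨(a :: R) ++ [b], ?_, by simp, ?_⟩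
      · rw [List.nodup_append]
        refine ⟨hp, by simp, ?_⟩
        intro u hu v hv huv
        simp only [List.mem_singleton] at hv
        rw [huv, hv] at hu
        exact hbsout b hb hu
      · rw [List.isChain_append]
        refine ⟨hch, List.IsChain.singleton _, ?_⟩
        intro u hu v hv
        simp only [List.head?_cons, Option.mem_def, Option.some.injEq] at hv
        rw [hRz, show a :: (R' ++ [z]) = (a :: R') ++ [z] by simp] at hu
        simp only [List.getLast?_append, List.getLast?_singleton, Option.some_or,
          Option.mem_def, Option.some.injEq] at hu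
        subst hu hv
        exact h
    refine ⟨z :: flat L, ?_, ?_, ?_⟩
    · rw [List.nodup_cons]
      refine ⟨?_, h1⟩
      rw [mem_flat]
      push Not
      constructor
      · intro hz
        have := hbsout z (hL.fsts.subset hz)
        apply this
        rw [hRz]
        simp
      · intro hz
        rw [hRz, show a :: (R' ++ [z]) = (a :: R') ++ [z] by simp, List.nodup_append] at hp
        rcases hL.mem z hz with h | h
        · exact hp.2.2 a (by simp) z (by simp) h.symm
        · exact hp.2.2 z (by simp [h]) z (by simp) rfl
    · rw [List.length_cons, h2]
      omega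
    · cases L with
      | nil => exact absurd rfl hne
      | cons q L =>
        rw [flat_cons] at h3 ⊢
        rw [List.isChain_cons_cons]
        refine ⟨hlast q.1 ?_, h3⟩
        exact hL.fsts.subset (by simp)
  · -- odd number
    have hkm : m = k + 1 := by omega
    obtain ⟨L, hL, hne⟩ := hmain R (by omega) ⟨[], by simp⟩
    obtain ⟨h1, h2, h3⟩ := hfin R L ⟨[], by simp⟩ hL
    exact ⟨flat L, h1, by omega, h3⟩

/-- Gerencser and Gyarfas: the diagonal two-colour Ramsey number of paths, upper bound. -/
theorem two_colour [Fintype V] [DecidableEq V] (Rd : V → V → Prop)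
    (hsymm : ∀ u v, Rd u v → Rd v u) (l : ℕ) (hl : 2 ≤ l) :
    l + l / 2 - 1 ≤ Fintype.card V → ∃ p : List V, p.Nodup ∧ p.length = l ∧
      (p.IsChain Rd ∨ p.IsChain (fun u v => ¬ Rd u v)) := by
  induction l, hl using Nat.le_induction with
  | base =>
    intro hcard
    obtain ⟨u, v, huv⟩ := Fintype.exists_pair_of_one_lt_card (α := V) (by omega)
    refine ⟨[u, v], by simpa using huv, rfl, ?_⟩
    by_cases h : Rd u v
    · left
      rw [List.isChain_cons_cons]
      exact ⟨h, List.IsChain.singleton _⟩
    · right
      rw [List.isChain_cons_cons]
      exact ⟨h, List.IsChain.singleton _⟩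
  | succ l hl ih =>
    intro hcard
    obtain ⟨p, hp, hlen, hch⟩ := ih (by omega)
    by_cases h1 : ∃ q : List V, q.Nodup ∧ q.length = l + 1 ∧ q.IsChain Rd
    · obtain ⟨q, h2, h3, h4⟩ := h1
      exact ⟨q, h2, h3, Or.inl h4⟩
    · by_cases h1' : ∃ q : List V, q.Nodup ∧ q.length = l + 1 ∧ q.IsChain (fun u v => ¬ Rd u v)
      · obtain ⟨q, h2, h3, h4⟩ := h1'
        exact ⟨q, h2, h3, Or.inr h4⟩
      · exfalso
        rcases hch with hch | hch
        · obtain ⟨q, h2, h3, h4⟩ := blue_path Rd hsymm p hp hch (by omega)
            (by rw [hlen]; exact h1) (by rw [hlen]; omega)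
          exact h1' ⟨q, h2, by rw [h3, hlen], h4⟩
        · obtain ⟨q, h2, h3, h4⟩ := blue_path (fun u v => ¬ Rd u v)
            (fun u v h h' => h (hsymm v u h')) p hp hch (by omega)
            (by rw [hlen]; exact h1') (by rw [hlen]; omega)
          apply h1
          refine ⟨q, h2, by rw [h3, hlen], ?_⟩
          apply h4.imp
          intro a b hab
          by_contra hcon
          exact hab hcon

end gg

end Pool.Agent.LibPathRamsey
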